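import Pool.Agent.N659.HB.FinN
import Pool.Agent.N659.HB.Stm7

/-!
Project LD: assembly of the theorem for all laws close to a law whose effective phases are
uniformly contracting.
-/

set_option autoImplicit false

namespace Pool.Agent.N300.LD.FINC

open MeasureTheory Filter Pool.Agent.W792.LL Pool.Agent.W792.WA Pool.Agent.W191.LL
open Pool.Agent.N659.HB
open scoped Topology ENNReal

noncomputable section

/-- The theorem for all laws close to a law with contracting effective phase (after scaling). -/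
theorem main (hCay : S_CAY) (hC2 : S_CHK2) (hG : S_GAPL) (hF : S_FUT) (hAe : S_AEQK)
    (hAf : S_AFF) (hW : S_WS)
    (hψ : ∃ ψ : C(UnitAddCircle, ℝ), IsSemi ψ ∧ ∀ d : ℕ, 0 < d → ∃ C : ℝ, 0 < C ∧
      ∀ (M : ℕ) (x : Fin d → ℤ),
      ‖UnitAddTorus.mFourierCoeff (fun k : UnitAddTorus (Fin d) =>
        ((ψ ((M * lap d k / (2 * Real.pi) : ℝ) : UnitAddCircle) : ℝ) : ℂ)) x‖
        ≤ C / (1 + ‖x‖) ^ ((d : ℝ) / 3)) : S_LDC := by
  intro d a b ε q X hd hab hε hq0 hq1 hpsi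
  obtain ⟨ψ, hψ1, hψ2⟩ := hψ
  obtain ⟨Cd, hCd, hCd1⟩ := hψ2 d hd
  have hdr : (0 : ℝ) < d := by exact_mod_cast hd
  set γ : ℝ := 4 * d / (b - a) with hγdef
  have hba : 0 < b - a := by linarith
  have hγ : 0 < γ := by positivity
  set K' : C(UnitAddTorus (Fin d), ℝ) := γ • (lap d - ContinuousMap.const _ a) with hK'
  set D : ℝ := ‖K'‖ + (4 * d + 2) with hD
  -- the levels
  obtain ⟨r, hr0, hr1, hr3⟩ : ∃ r : ℝ, 0 < r ∧ 2 * r ≤ γ * ε ∧ 2 * r * Cd ≤ γ * ε := by
    refine ⟨min (γ * ε / 2) (γ * ε / (2 * Cd)), lt_min (by positivity) (by positivity), ?_, ?_⟩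
    · have := min_le_left (γ * ε / 2) (γ * ε / (2 * Cd))
      linarith
    · have := min_le_right (γ * ε / 2) (γ * ε / (2 * Cd))
      rw [le_div_iff₀ (by positivity)] at this
      linarith
  have hl0 : ∀ n : ℕ, 0 < r * (1 / 16 : ℝ) ^ n := fun n => by positivity
  have hsum : Summable fun n : ℕ => r * (1 / 16 : ℝ) ^ n :=
    (summable_geometric_of_lt_one (by norm_num) (by norm_num)).mul_left r
  obtain ⟨ρ, hρ1, hρ2, hρ3, hρ4⟩ := hF ψ hψ1 (fun n => r * (1 / 16) ^ n) hl0 hsum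
  have htail : ∀ n : ℕ, ∑' j, r * (1 / 16 : ℝ) ^ (n + j) ≤ 2 * r * (1 / 16) ^ n := by
    intro n
    have h1 : ∀ j, r * (1 / 16 : ℝ) ^ (n + j) = (r * (1 / 16) ^ n) * (1 / 16) ^ j := by
      intro j; rw [pow_add]; ring
    simp only [h1]
    rw [tsum_mul_left, tsum_geometric_of_lt_one (by norm_num) (by norm_num)]
    have h2 : 0 < r * (1 / 16 : ℝ) ^ n := by positivity
    have h3 : ((1 : ℝ) - 1 / 16)⁻¹ ≤ 2 := by norm_num
    calc r * (1 / 16 : ℝ) ^ n * (1 - 1 / 16)⁻¹ ≤ r * (1 / 16 : ℝ) ^ n * 2 := by gcongr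
      _ = 2 * r * (1 / 16) ^ n := by ring
  have hρ3' : ∀ n, ρ n (Set.Icc (-(2 * r * (1 / 16) ^ n)) (2 * r * (1 / 16) ^ n))ᶜ = 0 := by
    intro n
    refine measure_mono_null (Set.compl_subset_compl.2 ?_) (hρ3 n)
    have := htail n
    exact Set.Icc_subset_Icc (by linarith) this
  have h00 := hρ3' 0
  rw [pow_zero, mul_one] at h00
  have i1 := hρ1 0
  obtain ⟨τ, hτ, hτ1⟩ := hG X q hq0 hq1 hpsi (ρ 0) (2 * r) D h00 (hρ4 0)
  refine ⟨τ, hτ, ?_⟩
  intro X' ν _ hcd hat hmap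
  -- law
  have hm2 : Measurable fun x : ℝ => (γ * 1) * x := by fun_prop
  have hP2 : IsProbabilityMeasure (ν.map fun x => (γ * 1) * x) :=
    Measure.isProbabilityMeasure_map hm2.aemeasurable
  have hmap' : (ν.map fun x => (γ * 1) * x) = qlaw X' := by
    rw [← hmap]
    simp only [mul_one]
  have hatom : ∀ x : ℝ, (ν.map fun x => (γ * 1) * x) {x} < 1 := by
    intro x
    rw [Measure.map_apply hm2 (measurableSet_singleton x)]
    have e : (fun y : ℝ => (γ * 1) * y) ⁻¹' {x} = {x / (γ * 1)} := by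
      ext y
      simp only [Set.mem_preimage, Set.mem_singleton_iff]
      rw [eq_div_iff (by positivity), mul_comm]
    rw [e]
    exact hat _
  -- the gap and the chain, for a law equal to `qlaw X'`
  obtain ⟨f0, hf1, hf2⟩ : ∃ f : C(ℝ, ℝ), IsSum ψ (2 * r) f ∧
      MestK (K' + gK f d) (ν.map fun x => (γ * 1) * x) := by
    have key : ∀ (ν' : Measure ℝ) [IsProbabilityMeasure ν'], ν' = qlaw X' →
        (∀ x : ℝ, ν' {x} < 1) →
        ∃ f : C(ℝ, ℝ), IsSum ψ (2 * r) f ∧ MestK (K' + gK f d) ν' := by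
      intro ν' _ he hat'
      subst he
      have hvr : 0 < vr (qlaw X') := Pool.Agent.W792.WA.Ch.vr_pos hCay _ hat'
      have hgap : ∀ z ∈ Zs d, ∀ s, IsFix (qlaw X') (ρ 0) (wz K' z) s →
          ‖s‖ ≤ 1 - (1 - q) / 2 := by
        intro z hz s hs
        obtain ⟨z1, z2, z3, z4⟩ := hz
        refine hτ1 X' hcd hvr d K' z ?_ z3 s hs
        have h1 := Complex.norm_le_abs_re_add_abs_im z
        rw [abs_of_nonneg z1, abs_of_pos z3] at h1
        rw [hD]
        linarith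
      exact hC2 ψ hψ1 d (qlaw X') K' r ((1 - q) / 2) ρ hd hvr hr0 (by linarith) hρ2 hρ3' hρ4 hgap
    exact key _ hmap' hatom
  have hfb : ∀ t, |f0 t| ≤ 2 * r := fun t => G16.IsSum.bound hψ1.bound hf1 t
  set F : C(ℝ, ℝ) := γ⁻¹ • f0 with hFdef
  have hFt : ∀ t, F t = γ⁻¹ * f0 t := fun t => rfl
  refine ⟨F, fun t => ?_, fun x => ?_, ?_⟩
  · rw [hFt, abs_mul, abs_of_pos (inv_pos.2 hγ)]
    calc γ⁻¹ * |f0 t| ≤ γ⁻¹ * (γ * ε) :=
          mul_le_mul_of_nonneg_left ((hfb t).trans hr1) (inv_pos.2 hγ).le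
      _ = ε := by field_simp
  · have e1' : (fun k : UnitAddTorus (Fin d) => ((F (lap d k) : ℝ) : ℂ))
        = fun k => ((γ⁻¹ * (f0 (lap d k)) : ℝ) : ℂ) := rfl
    rw [e1', hop_smul]
    have h2 := hW d ψ Cd (2 * r) f0 hd hCd.le (by positivity) hCd1 hf1 x
    have hx0 : (0 : ℝ) < (1 + ‖x‖) ^ ((d : ℝ) / 3) := by positivity
    rw [norm_mul, Complex.norm_real, Real.norm_of_nonneg (inv_pos.2 hγ).le]
    calc γ⁻¹ * _ ≤ γ⁻¹ * (γ * ε / (1 + ‖x‖) ^ ((d : ℝ) / 3)) := by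
          refine mul_le_mul_of_nonneg_left (h2.trans ?_) (inv_pos.2 hγ).le
          exact div_le_div_of_nonneg_right hr3 hx0.le
      _ = ε / (1 + ‖x‖) ^ ((d : ℝ) / 3) := by
          field_simp
  · have hkey : K' + gK f0 d = γ • ((lap d + gK F d) - ContinuousMap.const _ a) := by
      rw [hK']
      ext k
      simp only [ContinuousMap.add_apply, ContinuousMap.smul_apply, ContinuousMap.sub_apply,
        ContinuousMap.const_apply, smul_eq_mul, gK, ContinuousMap.comp_apply, hFt]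
      field_simp
      ring
    have h0 := hAe d ν (γ * 1) (K' + gK f0 d) hd (by positivity) hf2
    filter_upwards [h0] with v hv
    rw [hkey] at hv
    have h3 := hAf d (lap d + gK F d) γ a 1 0 (4 * d) v hγ hv
    have h4 : a + 0 / γ = a := by simp
    have h5 : a + 4 * d / γ = b := by
      rw [hγdef]; field_simp; ring
    rw [h4, h5] at h3
    exact h3

end

end Pool.Agent.N300.LD.FINC
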