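import Pool.Agent.N659.HB.Stm6
import Pool.Agent.W298.WA.Csym

/-!
# Project LD, part PSIC (helper300), first file: averages over a Cauchy component

Replacement of the phases `cay (w + δ ξ)` by their effective values, one site after the other, in
polynomials of finitely many phases.
-/

set_option autoImplicit false

namespace Pool.Agent.N300.LD

open MeasureTheory Filter Pool.Agent.W792.LL Pool.Agent.W792.WA Pool.Agent.N659.HB
open Pool.Agent.W298.WA.Csym (dl_apply inner_dl apply_le hasSum_dl trunc_apply trunc_norm cay_norm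
  cay_cont opr_norm_le opr_add opr_mul opr_smul opr_sub opr_apply inner_trunc tendsto_trunc)
open scoped Topology

variable {d : ℕ}

/-! ### diagonal operators -/

theorem dia_apply {c : (Fin d → ℤ) → ℂ} (hc : ∀ x, ‖c x‖ ≤ 1) (u : l2 (Fin d → ℤ))
    (x : Fin d → ℤ) : dia c u x = c x * u x :=
  (Pool.Agent.W792.LL.DiaP.main (Fin d → ℤ) c hc).1 u x

theorem dia_norm {c : (Fin d → ℤ) → ℂ} (hc : ∀ x, ‖c x‖ ≤ 1) (u : l2 (Fin d → ℤ)) {q : ℝ}
    (hq : 0 ≤ q) (h : ∀ x, ‖c x‖ ≤ q) : ‖dia c u‖ ≤ q * ‖u‖ := by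
  have h1 : ‖dia c u‖ ≤ ‖((q : ℂ) • u : l2 (Fin d → ℤ))‖ := by
    refine lp.norm_mono two_ne_zero fun i => ?_
    rw [dia_apply hc, lp.coeFn_smul, Pi.smul_apply, norm_mul, norm_smul, Complex.norm_real,
      Real.norm_of_nonneg hq]
    exact mul_le_mul_of_nonneg_right (h i) (norm_nonneg _)
  rwa [norm_smul, Complex.norm_real, Real.norm_of_nonneg hq] at h1

/-- the configuration cut off outside of `F` -/
def cF (F : Finset (Fin d → ℤ)) (c : (Fin d → ℤ) → ℂ) (y : Fin d → ℤ) : ℂ :=
  if y ∈ F then c y else 0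

theorem cF_norm (F : Finset (Fin d → ℤ)) {c : (Fin d → ℤ) → ℂ} (hc : ∀ x, ‖c x‖ ≤ 1)
    (x : Fin d → ℤ) : ‖cF F c x‖ ≤ 1 := by
  unfold cF
  split_ifs
  · exact hc x
  · simp

/-! ### the iteration -/

section iter

variable (m : C(UnitAddTorus (Fin d), ℂ)) (u : l2 (Fin d → ℤ))

/-- the iteration `S ↦ c (u + m S)` -/
noncomputable def SN (c : (Fin d → ℤ) → ℂ) : ℕ → l2 (Fin d → ℤ)
  | 0 => 0
  | N + 1 => dia c (u + opr m (SN c N))

theorem opr_le (v : l2 (Fin d → ℤ)) : ‖opr m v‖ ≤ ‖m‖ * ‖v‖ :=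
  (opr m).le_of_opNorm_le (opr_norm_le m) v

variable {m u}

theorem SN_norm (hm : ‖m‖ < 1) {c : (Fin d → ℤ) → ℂ} (hc : ∀ x, ‖c x‖ ≤ 1) (N : ℕ) :
    ‖SN m u c N‖ ≤ ‖u‖ / (1 - ‖m‖) := by
  have h0 : 0 < 1 - ‖m‖ := by linarith
  induction N with
  | zero =>
    simp only [SN, norm_zero]
    positivity
  | succ N ih =>
    have h1 := dia_norm hc (u + opr m (SN m u c N)) zero_le_one hc
    have h2 := norm_add_le u (opr m (SN m u c N))
    have h3 := opr_le m (SN m u c N)
    have h4 : ‖m‖ * ‖SN m u c N‖ ≤ ‖m‖ * (‖u‖ / (1 - ‖m‖)) :=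
      mul_le_mul_of_nonneg_left ih (norm_nonneg _)
    have h5 : ‖u‖ + ‖m‖ * (‖u‖ / (1 - ‖m‖)) = ‖u‖ / (1 - ‖m‖) := by
      field_simp
      ring
    change ‖dia c (u + opr m (SN m u c N))‖ ≤ _
    linarith

theorem lim_F {c : (Fin d → ℤ) → ℂ} (hc : ∀ x, ‖c x‖ ≤ 1) (N : ℕ) :
    Tendsto (fun F : Finset (Fin d → ℤ) => SN m u (cF F c) N) atTop (𝓝 (SN m u c N)) := by
  induction N with
  | zero => exact tendsto_const_nhds
  | succ N ih =>
    set b : Finset (Fin d → ℤ) → l2 (Fin d → ℤ) := fun F => dia c (u + opr m (SN m u (cF F c) N))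
      with hb
    set a : l2 (Fin d → ℤ) := dia c (u + opr m (SN m u c N)) with ha
    have h1 : Tendsto b atTop (𝓝 a) :=
      ((dia c).continuous.tendsto _).comp (tendsto_const_nhds.add
        (((opr m).continuous.tendsto _).comp ih))
    have h2 : Tendsto (fun F : Finset (Fin d → ℤ) => ∑ x ∈ F, a x • (dl x : l2 (Fin d → ℤ)))
        atTop (𝓝 a) := hasSum_dl a
    have h3 : ∀ F : Finset (Fin d → ℤ), SN m u (cF F c) (N + 1) =
        ∑ x ∈ F, (b F) x • (dl x : l2 (Fin d → ℤ)) := by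
      intro F
      ext i
      rw [trunc_apply]
      change dia (cF F c) (u + opr m (SN m u (cF F c) N)) i = _
      rw [dia_apply (cF_norm F hc), hb]
      simp only
      rw [dia_apply hc]
      unfold cF
      split_ifs
      · rfl
      · rw [zero_mul]
    change Tendsto (fun F : Finset (Fin d → ℤ) => SN m u (cF F c) (N + 1)) atTop (𝓝 a)
    rw [tendsto_iff_norm_sub_tendsto_zero]
    have h4 : Tendsto (fun F : Finset (Fin d → ℤ) => ‖b F - a‖ +
        ‖∑ x ∈ F, a x • (dl x : l2 (Fin d → ℤ)) - a‖) atTop (𝓝 0) := by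
      have := (tendsto_iff_norm_sub_tendsto_zero.1 h1).add (tendsto_iff_norm_sub_tendsto_zero.1 h2)
      rwa [add_zero] at this
    refine squeeze_zero (fun F => norm_nonneg _) (fun F => ?_) h4
    have h5 : SN m u (cF F c) (N + 1) - a = ∑ x ∈ F, (b F - a) x • (dl x : l2 (Fin d → ℤ)) +
        (∑ x ∈ F, a x • (dl x : l2 (Fin d → ℤ)) - a) := by
      rw [h3, ← add_sub_assoc, ← Finset.sum_add_distrib]
      congr 1
      refine Finset.sum_congr rfl fun x _ => ?_
      rw [← add_smul]
      congr 1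
      rw [lp.coeFn_sub, Pi.sub_apply, sub_add_cancel]
    rw [h5]
    exact (norm_add_le _ _).trans (add_le_add (trunc_norm _ _) le_rfl)

variable (m u)

/-- the iteration on a finite set -/
noncomputable def GF (F : Finset (Fin d → ℤ)) (c : (Fin d → ℤ) → ℂ) :
    ℕ → (Fin d → ℤ) → ℂ
  | 0, _ => 0
  | N + 1, y => if y ∈ F then c y * (u y + ∑ z ∈ F, UnitAddTorus.mFourierCoeff m (y - z) *
      GF F c N z) else 0

variable {m u}

theorem GF_off {F : Finset (Fin d → ℤ)} {c : (Fin d → ℤ) → ℂ} (N : ℕ) {y : Fin d → ℤ}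
    (hy : y ∉ F) : GF m u F c N y = 0 := by
  cases N with
  | zero => rfl
  | succ N =>
    unfold GF
    rw [if_neg hy]

theorem GF_eq (F : Finset (Fin d → ℤ)) {c : (Fin d → ℤ) → ℂ} (hc : ∀ x, ‖c x‖ ≤ 1) (N : ℕ)
    (y : Fin d → ℤ) : SN m u (cF F c) N y = GF m u F c N y := by
  induction N generalizing y with
  | zero => rfl
  | succ N ih =>
    change dia (cF F c) (u + opr m (SN m u (cF F c) N)) y = _
    rw [dia_apply (cF_norm F hc), lp.coeFn_add, Pi.add_apply]
    have h1 := opr_apply m (SN m u (cF F c) N) y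
    have h2 : HasSum (fun z => UnitAddTorus.mFourierCoeff m (y - z) * SN m u (cF F c) N z)
        (∑ z ∈ F, UnitAddTorus.mFourierCoeff m (y - z) * SN m u (cF F c) N z) := by
      refine hasSum_sum_of_ne_finset_zero fun z hz => ?_
      rw [ih, GF_off N hz, mul_zero]
    rw [h1.unique h2]
    unfold cF GF
    split_ifs with h
    · congr 2
      exact Finset.sum_congr rfl fun z _ => by
        rw [← ih]
        rfl
    · rw [zero_mul]

theorem GF_congr (F : Finset (Fin d → ℤ)) {c c' : (Fin d → ℤ) → ℂ} (h : ∀ y ∈ F, c y = c' y)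
    (N : ℕ) (y : Fin d → ℤ) : GF m u F c N y = GF m u F c' N y := by
  induction N generalizing y with
  | zero => rfl
  | succ N ih =>
    unfold GF
    split_ifs with hy
    · rw [h y hy]
      congr 2
      exact Finset.sum_congr rfl fun z _ => by rw [ih]
    · rfl

theorem GF_poly (F : Finset (Fin d → ℤ)) (c : (Fin d → ℤ) → ℂ) (y₀ : Fin d → ℤ) (N : ℕ)
    (y : Fin d → ℤ) : ∃ P : Polynomial ℂ, ∀ t : ℂ,
      GF m u F (Function.update c y₀ t) N y = P.eval t := by
  induction N generalizing y with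
  | zero => exact ⟨0, fun t => by simp [GF]⟩
  | succ N ih =>
    choose Q hQ using ih
    by_cases hy : y ∈ F
    · refine ⟨(if y = y₀ then Polynomial.X else Polynomial.C (c y)) * (Polynomial.C (u y) +
        ∑ z ∈ F, Polynomial.C (UnitAddTorus.mFourierCoeff m (y - z)) * Q z), fun t => ?_⟩
      unfold GF
      rw [if_pos hy, Polynomial.eval_mul, Polynomial.eval_add, Polynomial.eval_C,
        Polynomial.eval_finset_sum]
      congr 1
      · by_cases h : y = y₀
        · rw [if_pos h, h, Function.update_self, Polynomial.eval_X]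
        · rw [if_neg h, Function.update_of_ne h, Polynomial.eval_C]
      · congr 1
        refine Finset.sum_congr rfl fun z _ => ?_
        rw [Polynomial.eval_mul, Polynomial.eval_C, hQ]
    · refine ⟨0, fun t => ?_⟩
      unfold GF
      rw [if_neg hy, Polynomial.eval_zero]

theorem GF_meas {Ω : Type} [MeasurableSpace Ω] (F : Finset (Fin d → ℤ))
    {c : Ω → (Fin d → ℤ) → ℂ} (hc : ∀ y, Measurable fun ω => c ω y) (N : ℕ) (y : Fin d → ℤ) :
    Measurable fun ω => GF m u F (c ω) N y := by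
  induction N generalizing y with
  | zero => exact measurable_const
  | succ N ih =>
    unfold GF
    by_cases hy : y ∈ F
    · simp only [if_pos hy]
      exact (hc y).mul (measurable_const.add
        (Finset.measurable_fun_sum F fun z _ => (ih z).const_mul _))
    · simp only [if_neg hy]
      exact measurable_const

theorem GF_bd (hm : ‖m‖ < 1) (F : Finset (Fin d → ℤ)) {c : (Fin d → ℤ) → ℂ}
    (hc : ∀ x, ‖c x‖ ≤ 1) (N : ℕ) (y : Fin d → ℤ) :
    ‖GF m u F c N y‖ ≤ ‖u‖ / (1 - ‖m‖) := by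
  rw [← GF_eq F hc]
  exact (apply_le _ _).trans (SN_norm hm (cF_norm F hc) N)

end iter

/-! ### resampling of one site -/

theorem resample {X : Type} [MeasurableSpace X] (κ : Measure X) [IsProbabilityMeasure κ]
    {Γ : Type} [DecidableEq Γ] (y : Γ) :
    (((Measure.infinitePi fun _ : Γ => κ).prod κ).map
      (fun q : (Γ → X) × X => Function.update q.1 y q.2)) = Measure.infinitePi fun _ : Γ => κ := by
  refine Measure.eq_infinitePi _ fun s t ht => ?_
  have hmeas : Measurable fun q : (Γ → X) × X => Function.update q.1 y q.2 := measurable_update'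
  rw [Measure.map_apply hmeas (.pi s.countable_toSet fun i _ => ht i)]
  by_cases hy : y ∈ s
  · have h1 : (fun q : (Γ → X) × X => Function.update q.1 y q.2) ⁻¹' ((s : Set Γ).pi t) =
        (((s.erase y : Finset Γ) : Set Γ).pi t) ×ˢ t y := by
      ext q
      simp only [Set.mem_preimage, Set.mem_pi, Finset.mem_coe, Set.mem_prod, Finset.mem_erase]
      constructor
      · intro h
        refine ⟨fun i hi => ?_, ?_⟩
        · have := h i hi.2
          rwa [Function.update_of_ne hi.1] at this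
        · have := h y hy
          rwa [Function.update_self] at this
      · rintro ⟨h2, h3⟩ i hi
        by_cases hiy : i = y
        · subst hiy
          rwa [Function.update_self]
        · rw [Function.update_of_ne hiy]
          exact h2 i ⟨hiy, hi⟩
    rw [h1, Measure.prod_prod, Measure.infinitePi_pi _ (fun i _ => ht i),
      Finset.prod_erase_mul s _ hy]
  · have h1 : (fun q : (Γ → X) × X => Function.update q.1 y q.2) ⁻¹' ((s : Set Γ).pi t) =
        ((s : Set Γ).pi t) ×ˢ Set.univ := by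
      ext q
      simp only [Set.mem_preimage, Set.mem_pi, Finset.mem_coe, Set.mem_prod, Set.mem_univ,
        and_true]
      refine forall_congr' fun i => forall_congr' fun hi => ?_
      rw [Function.update_of_ne (fun h => hy (by rw [← h]; exact hi))]
    rw [h1, Measure.prod_prod, Measure.infinitePi_pi _ (fun i _ => ht i), measure_univ, mul_one]

/-! ### one site -/

/-- the effective value of the phase -/
noncomputable def cp (δ w : ℝ) : ℂ :=
  ((w : ℂ) - δ * Complex.I + Complex.I) / ((w : ℂ) - δ * Complex.I - Complex.I)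

theorem cp_sq {δ : ℝ} (hδ : 0 < δ) (w : ℝ) :
    ‖cp δ w‖ ^ 2 = 1 - 4 * δ / (w ^ 2 + (1 + δ) ^ 2) := by
  have h1 : ‖(w : ℂ) - δ * Complex.I + Complex.I‖ ^ 2 = w ^ 2 + (1 - δ) ^ 2 := by
    rw [← Complex.normSq_eq_norm_sq, Complex.normSq_apply]
    simp
    ring
  have h2 : ‖(w : ℂ) - δ * Complex.I - Complex.I‖ ^ 2 = w ^ 2 + (1 + δ) ^ 2 := by
    rw [← Complex.normSq_eq_norm_sq, Complex.normSq_apply]
    simp
    ring
  unfold cp
  rw [norm_div, div_pow, h1, h2]
  have h3 : 0 < w ^ 2 + (1 + δ) ^ 2 := by positivity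
  field_simp
  ring

theorem cp_one {δ : ℝ} (hδ : 0 < δ) (w : ℝ) : ‖cp δ w‖ ≤ 1 := by
  have h1 := cp_sq hδ w
  have h2 : 0 ≤ 4 * δ / (w ^ 2 + (1 + δ) ^ 2) := by positivity
  nlinarith [norm_nonneg (cp δ w)]

theorem cp_meas (δ : ℝ) : Measurable (cp δ) := by
  unfold cp
  fun_prop

theorem one_site (hCP : S_CPOW) (μ : Measure ℝ) [IsProbabilityMeasure μ] {δ : ℝ} (hδ : 0 < δ)
    (P : Polynomial ℂ) :
    ∫ a : ℝ × ℝ, P.eval (cay (a.1 + δ * a.2)) ∂(μ.prod (ProbabilityTheory.cauchyMeasure 0 1)) =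
    ∫ a : ℝ × ℝ, P.eval (cp δ a.1) ∂(μ.prod (ProbabilityTheory.cauchyMeasure 0 1)) := by
  have m0 : Measurable fun a : ℝ × ℝ => cay (a.1 + δ * a.2) :=
    cay_cont.measurable.comp (by fun_prop)
  have m1 : Measurable fun a : ℝ × ℝ => cp δ a.1 := (cp_meas δ).comp measurable_fst
  have i0 : ∀ n : ℕ, Integrable (fun a : ℝ × ℝ => cay (a.1 + δ * a.2) ^ n)
      (μ.prod (ProbabilityTheory.cauchyMeasure 0 1)) := fun n =>
    Integrable.of_bound (m0.pow_const n).aestronglyMeasurable 1 (Eventually.of_forall fun a => by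
      rw [norm_pow, cay_norm, one_pow])
  have i1 : ∀ n : ℕ, Integrable (fun a : ℝ × ℝ => cp δ a.1 ^ n)
      (μ.prod (ProbabilityTheory.cauchyMeasure 0 1)) := fun n =>
    Integrable.of_bound (m1.pow_const n).aestronglyMeasurable 1 (Eventually.of_forall fun a => by
      rw [norm_pow]
      exact pow_le_one₀ (norm_nonneg _) (cp_one hδ _))
  simp only [Polynomial.eval_eq_sum_range]
  rw [integral_finsetSum _ fun n _ => (i0 n).const_mul _,
    integral_finsetSum _ fun n _ => (i1 n).const_mul _]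
  refine Finset.sum_congr rfl fun n _ => ?_
  rw [integral_const_mul, integral_const_mul, integral_prod _ (i0 n), integral_prod _ (i1 n)]
  congr 1
  refine integral_congr_ae (Eventually.of_forall fun w => ?_)
  simp only
  have h1 := hCP w δ n hδ
  rw [integral_const, probReal_univ, one_smul]
  refine Eq.trans ?_ h1
  rfl

/-! ### replacement of the phases -/

section repl

variable (δ : ℝ)

/-- the phases -/
noncomputable def c0 (p : (Fin d → ℤ) → ℝ × ℝ) (y : Fin d → ℤ) : ℂ := cay ((p y).1 + δ * (p y).2)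

/-- their effective values -/
noncomputable def c1 (p : (Fin d → ℤ) → ℝ × ℝ) (y : Fin d → ℤ) : ℂ := cp δ (p y).1

/-- effective values at the sites in `S` -/
noncomputable def cH (S : Finset (Fin d → ℤ)) (p : (Fin d → ℤ) → ℝ × ℝ) (y : Fin d → ℤ) : ℂ :=
  if y ∈ S then c1 δ p y else c0 δ p y

theorem c0_one (p : (Fin d → ℤ) → ℝ × ℝ) (y : Fin d → ℤ) : ‖c0 δ p y‖ ≤ 1 := (cay_norm _).le

theorem c0_meas (y : Fin d → ℤ) : Measurable fun p : (Fin d → ℤ) → ℝ × ℝ => c0 δ p y :=
  cay_cont.measurable.comp (by fun_prop)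

theorem c1_meas (y : Fin d → ℤ) : Measurable fun p : (Fin d → ℤ) → ℝ × ℝ => c1 δ p y :=
  (cp_meas δ).comp (by fun_prop)

theorem cH_meas (S : Finset (Fin d → ℤ)) (y : Fin d → ℤ) :
    Measurable fun p : (Fin d → ℤ) → ℝ × ℝ => cH δ S p y := by
  unfold cH
  split_ifs
  · exact c1_meas δ y
  · exact c0_meas δ y

variable {δ}

theorem c1_one (hδ : 0 < δ) (p : (Fin d → ℤ) → ℝ × ℝ) (y : Fin d → ℤ) : ‖c1 δ p y‖ ≤ 1 :=
  cp_one hδ _

theorem cH_one (hδ : 0 < δ) (S : Finset (Fin d → ℤ)) (p : (Fin d → ℤ) → ℝ × ℝ)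
    (y : Fin d → ℤ) : ‖cH δ S p y‖ ≤ 1 := by
  unfold cH
  split_ifs
  · exact c1_one hδ p y
  · exact c0_one δ p y

/-- the law of the pairs -/
noncomputable def PP (μ : Measure ℝ) [IsProbabilityMeasure μ] (d : ℕ) :
    Measure ((Fin d → ℤ) → ℝ × ℝ) :=
  Measure.infinitePi fun _ : Fin d → ℤ => μ.prod (ProbabilityTheory.cauchyMeasure 0 1)

instance (μ : Measure ℝ) [IsProbabilityMeasure μ] (d : ℕ) : IsProbabilityMeasure (PP μ d) := by
  unfold PP
  infer_instance

theorem replace_one (hCP : S_CPOW) (μ : Measure ℝ) [IsProbabilityMeasure μ] (hδ : 0 < δ)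
    {m : C(UnitAddTorus (Fin d), ℂ)} (hm : ‖m‖ < 1) (u : l2 (Fin d → ℤ))
    (F S : Finset (Fin d → ℤ)) (y : Fin d → ℤ) (hy : y ∉ S) (N : ℕ) (x : Fin d → ℤ) :
    ∫ p, GF m u F (cH δ (insert y S) p) N x ∂(PP μ d) = ∫ p, GF m u F (cH δ S p) N x ∂(PP μ d) := by
  have key : ∀ T : Finset (Fin d → ℤ), ∫ p, GF m u F (cH δ T p) N x ∂(PP μ d) =
      ∫ p, ∫ a : ℝ × ℝ, GF m u F (cH δ T (Function.update p y a)) N x
        ∂(μ.prod (ProbabilityTheory.cauchyMeasure 0 1)) ∂(PP μ d) := by
    intro T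
    have hM : Measurable fun p : (Fin d → ℤ) → ℝ × ℝ => GF m u F (cH δ T p) N x :=
      GF_meas F (fun y => cH_meas δ T y) N x
    have hU : Measurable fun q : ((Fin d → ℤ) → ℝ × ℝ) × (ℝ × ℝ) => Function.update q.1 y q.2 :=
      measurable_update'
    have h1 : ∫ p, GF m u F (cH δ T p) N x ∂(PP μ d) =
        ∫ q, GF m u F (cH δ T (Function.update q.1 y q.2)) N x
          ∂((PP μ d).prod (μ.prod (ProbabilityTheory.cauchyMeasure 0 1))) := by
      conv_lhs => rw [PP, ← resample (μ.prod (ProbabilityTheory.cauchyMeasure 0 1)) y]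
      rw [integral_map hU.aemeasurable hM.aestronglyMeasurable]
      rfl
    rw [h1, integral_prod]
    exact Integrable.of_bound (hM.comp hU).aestronglyMeasurable (‖u‖ / (1 - ‖m‖))
      (Eventually.of_forall fun q => GF_bd hm F (cH_one hδ T _) N x)
  rw [key, key]
  refine integral_congr_ae (Eventually.of_forall fun p => ?_)
  simp only
  obtain ⟨P, hP⟩ := GF_poly (m := m) (u := u) F (cH δ S p) y N x
  have e1 : ∀ a : ℝ × ℝ, cH δ (insert y S) (Function.update p y a) =
      Function.update (cH δ S p) y (cp δ a.1) := by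
    intro a
    funext z
    by_cases hz : z = y
    · subst hz
      rw [Function.update_self]
      unfold cH c1
      rw [if_pos (Finset.mem_insert_self _ _), Function.update_self]
    · rw [Function.update_of_ne hz]
      unfold cH c1 c0
      rw [Function.update_of_ne hz]
      by_cases hzS : z ∈ S
      · rw [if_pos hzS, if_pos (Finset.mem_insert_of_mem hzS)]
      · rw [if_neg hzS, if_neg (by
          rw [Finset.mem_insert, not_or]
          exact ⟨hz, hzS⟩)]
  have e2 : ∀ a : ℝ × ℝ, cH δ S (Function.update p y a) =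
      Function.update (cH δ S p) y (cay (a.1 + δ * a.2)) := by
    intro a
    funext z
    by_cases hz : z = y
    · subst hz
      rw [Function.update_self]
      unfold cH c0
      rw [if_neg hy, Function.update_self]
    · rw [Function.update_of_ne hz]
      unfold cH c1 c0
      rw [Function.update_of_ne hz]
  simp only [e1, e2, hP]
  exact (one_site hCP μ hδ P).symm

theorem replace_all (hCP : S_CPOW) (μ : Measure ℝ) [IsProbabilityMeasure μ] (hδ : 0 < δ)
    {m : C(UnitAddTorus (Fin d), ℂ)} (hm : ‖m‖ < 1) (u : l2 (Fin d → ℤ))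
    (F : Finset (Fin d → ℤ)) (N : ℕ) (x : Fin d → ℤ) :
    ∫ p, GF m u F (c1 δ p) N x ∂(PP μ d) = ∫ p, GF m u F (c0 δ p) N x ∂(PP μ d) := by
  have h1 : ∀ S : Finset (Fin d → ℤ), ∫ p, GF m u F (cH δ S p) N x ∂(PP μ d) =
      ∫ p, GF m u F (c0 δ p) N x ∂(PP μ d) := by
    intro S
    induction S using Finset.induction_on with
    | empty =>
      refine integral_congr_ae (Eventually.of_forall fun p => ?_)
      simp only
      congr 1
    | insert y S hy ih => rw [replace_one hCP μ hδ hm u F S y hy N x, ih]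
  rw [← h1 F]
  refine integral_congr_ae (Eventually.of_forall fun p => ?_)
  simp only
  refine (GF_congr F (fun y hy => ?_) N x).symm
  unfold cH
  rw [if_pos hy]

end repl

end Pool.Agent.N300.LD
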