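import Pool.Agent.N300.LD.PsiA

/-!
# Project LD, part PSIC (helper300): the effective phase of a law with a Cauchy component
-/

set_option autoImplicit false

namespace Pool.Agent.N300.LD

open MeasureTheory Filter Pool.Agent.W792.LL Pool.Agent.W792.WA Pool.Agent.N659.HB
open Pool.Agent.W298.WA.Csym (dl_apply inner_dl apply_le hasSum_dl trunc_apply trunc_norm cay_norm
  cay_cont opr_norm_le opr_add opr_mul opr_smul opr_sub opr_apply inner_trunc tendsto_trunc)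
open scoped Topology

variable {d : ℕ}

/-- `c (1 - m c)⁻¹ u` -/
noncomputable def gg (m : C(UnitAddTorus (Fin d), ℂ)) (u : l2 (Fin d → ℤ))
    (c : (Fin d → ℤ) → ℂ) : l2 (Fin d → ℤ) :=
  dia c (Ring.inverse (1 - opr m * dia c) u)

section

variable {m : C(UnitAddTorus (Fin d), ℂ)} {u : l2 (Fin d → ℤ)} {c : (Fin d → ℤ) → ℂ}

theorem gg_fix (hm : ‖m‖ < 1) (hc : ∀ x, ‖c x‖ ≤ 1) :
    gg m u c = dia c (u + opr m (gg m u c)) := by
  have h1 : ‖opr m * dia c‖ < 1 := by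
    refine lt_of_le_of_lt (ContinuousLinearMap.opNorm_comp_le (opr m) (dia c)) ?_
    have h2 : ‖dia c‖ ≤ 1 := (Pool.Agent.W792.LL.DiaP.main (Fin d → ℤ) c hc).2
    have h3 := mul_le_mul (opr_norm_le m) h2 (norm_nonneg _) (norm_nonneg _)
    linarith
  have h2 : IsUnit (1 - opr m * dia c) := (Units.oneSub _ h1).isUnit
  have h3 := Ring.mul_inverse_cancel _ h2
  have h4 : (1 - opr m * dia c) (Ring.inverse (1 - opr m * dia c) u) = u := by
    have := congrArg (fun T : l2 (Fin d → ℤ) →L[ℂ] l2 (Fin d → ℤ) => T u) h3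
    simpa using this
  have h5 : Ring.inverse (1 - opr m * dia c) u = u + opr m (gg m u c) := by
    have h6 : (1 - opr m * dia c) (Ring.inverse (1 - opr m * dia c) u) =
        Ring.inverse (1 - opr m * dia c) u - opr m (gg m u c) := rfl
    rw [h6] at h4
    exact sub_eq_iff_eq_add.1 h4
  conv_lhs => rw [gg, h5]

theorem gg_norm (hm : ‖m‖ < 1) (hc : ∀ x, ‖c x‖ ≤ 1) : ‖gg m u c‖ ≤ ‖u‖ / (1 - ‖m‖) := by
  have h1 := dia_norm hc (u + opr m (gg m u c)) zero_le_one hc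
  rw [← gg_fix hm hc] at h1
  have h2 := norm_add_le u (opr m (gg m u c))
  have h3 := opr_le m (gg m u c)
  rw [le_div_iff₀ (by linarith)]
  linarith

theorem gg_sub (hm : ‖m‖ < 1) (hc : ∀ x, ‖c x‖ ≤ 1) (N : ℕ) :
    ‖SN m u c N - gg m u c‖ ≤ ‖m‖ ^ N * ‖gg m u c‖ := by
  induction N with
  | zero =>
    change ‖(0 : l2 (Fin d → ℤ)) - gg m u c‖ ≤ _
    rw [zero_sub, norm_neg, pow_zero, one_mul]
  | succ N ih =>
    have h1 : SN m u c (N + 1) - gg m u c = dia c (opr m (SN m u c N - gg m u c)) := by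
      conv_lhs => rw [gg_fix hm hc]
      change dia c (u + opr m (SN m u c N)) - dia c (u + opr m (gg m u c)) = _
      rw [← map_sub, map_sub (opr m)]
      congr 1
      abel
    rw [h1]
    have h2 := dia_norm hc (opr m (SN m u c N - gg m u c)) zero_le_one hc
    have h3 := opr_le m (SN m u c N - gg m u c)
    have h4 : ‖m‖ * ‖SN m u c N - gg m u c‖ ≤ ‖m‖ * (‖m‖ ^ N * ‖gg m u c‖) :=
      mul_le_mul_of_nonneg_left ih (norm_nonneg _)
    calc _ ≤ _ := h2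
      _ ≤ ‖m‖ * (‖m‖ ^ N * ‖gg m u c‖) := by linarith
      _ = _ := by ring

theorem gg_lim (hm : ‖m‖ < 1) (hc : ∀ x, ‖c x‖ ≤ 1) :
    Tendsto (fun N => SN m u c N) atTop (𝓝 (gg m u c)) := by
  rw [tendsto_iff_norm_sub_tendsto_zero]
  have h1 : Tendsto (fun N : ℕ => ‖m‖ ^ N * ‖gg m u c‖) atTop (𝓝 0) := by
    have := (tendsto_pow_atTop_nhds_zero_of_lt_one (norm_nonneg m) hm).mul_const ‖gg m u c‖
    rwa [zero_mul] at this
  exact squeeze_zero (fun N => norm_nonneg _) (fun N => gg_sub hm hc N) h1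

theorem tend_apply {ι : Type} {l : Filter ι} {f : ι → l2 (Fin d → ℤ)} {g : l2 (Fin d → ℤ)}
    (h : Tendsto f l (𝓝 g)) (x : Fin d → ℤ) : Tendsto (fun i => f i x) l (𝓝 (g x)) := by
  have h1 : Tendsto (fun i => inner ℂ (dl x) (f i)) l (𝓝 (inner ℂ (dl x) g)) :=
    Tendsto.inner tendsto_const_nhds h
  simpa only [inner_dl] using h1

end

/-! ### limits of the averages -/

section lim

variable {Ω : Type} [MeasurableSpace Ω] (P : Measure Ω) [IsProbabilityMeasure P]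
  {m : C(UnitAddTorus (Fin d), ℂ)} (u : l2 (Fin d → ℤ)) {c : Ω → (Fin d → ℤ) → ℂ}

theorem lim1 (hm : ‖m‖ < 1) (hc : ∀ ω x, ‖c ω x‖ ≤ 1) (hcm : ∀ y, Measurable fun ω => c ω y)
    (N : ℕ) (x : Fin d → ℤ) : Measurable (fun ω => SN m u (c ω) N x) ∧
    Tendsto (fun F : Finset (Fin d → ℤ) => ∫ ω, GF m u F (c ω) N x ∂P) atTop
      (𝓝 (∫ ω, SN m u (c ω) N x ∂P)) := by
  have hp : ∀ ω, Tendsto (fun F : Finset (Fin d → ℤ) => GF m u F (c ω) N x) atTop
      (𝓝 (SN m u (c ω) N x)) := by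
    intro ω
    have h1 := tend_apply (lim_F (m := m) (u := u) (hc ω) N) x
    refine h1.congr fun F => ?_
    exact GF_eq F (hc ω) N x
  have hM : ∀ F : Finset (Fin d → ℤ), Measurable fun ω => GF m u F (c ω) N x := fun F =>
    GF_meas F hcm N x
  refine ⟨measurable_of_tendsto_metrizable' (u := (atTop : Filter (Finset (Fin d → ℤ)))) hM
    (tendsto_pi_nhds.2 hp), ?_⟩
  exact tendsto_integral_filter_of_dominated_convergence (fun _ => ‖u‖ / (1 - ‖m‖))
    (Eventually.of_forall fun F => (hM F).aestronglyMeasurable)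
    (Eventually.of_forall fun F => Eventually.of_forall fun ω => GF_bd hm F (hc ω) N x)
    (integrable_const _) (Eventually.of_forall hp)

theorem lim2 (hm : ‖m‖ < 1) (hc : ∀ ω x, ‖c ω x‖ ≤ 1) (hcm : ∀ y, Measurable fun ω => c ω y)
    (x : Fin d → ℤ) : Measurable (fun ω => gg m u (c ω) x) ∧
    Tendsto (fun N : ℕ => ∫ ω, SN m u (c ω) N x ∂P) atTop (𝓝 (∫ ω, gg m u (c ω) x ∂P)) := by
  have hp : ∀ ω, Tendsto (fun N : ℕ => SN m u (c ω) N x) atTop (𝓝 (gg m u (c ω) x)) :=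
    fun ω => tend_apply (gg_lim hm (hc ω)) x
  have hM : ∀ N : ℕ, Measurable fun ω => SN m u (c ω) N x := fun N => (lim1 P u hm hc hcm N x).1
  refine ⟨measurable_of_tendsto_metrizable hM (tendsto_pi_nhds.2 hp), ?_⟩
  exact tendsto_integral_of_dominated_convergence (fun _ => ‖u‖ / (1 - ‖m‖))
    (fun N => (hM N).aestronglyMeasurable) (integrable_const _)
    (fun N => Eventually.of_forall fun ω => (apply_le _ _).trans (SN_norm hm (hc ω) N))
    (Eventually.of_forall hp)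

end lim

theorem avg_eq (hCP : S_CPOW) (μ : Measure ℝ) [IsProbabilityMeasure μ] {δ : ℝ} (hδ : 0 < δ)
    {m : C(UnitAddTorus (Fin d), ℂ)} (hm : ‖m‖ < 1) (u : l2 (Fin d → ℤ)) (x : Fin d → ℤ) :
    ∫ p, gg m u (c0 δ p) x ∂(PP μ d) = ∫ p, gg m u (c1 δ p) x ∂(PP μ d) := by
  have h1 : ∀ N : ℕ, ∫ p, SN m u (c0 δ p) N x ∂(PP μ d) = ∫ p, SN m u (c1 δ p) N x ∂(PP μ d) := by
    intro N
    have a1 := (lim1 (PP μ d) u hm (c0_one δ) (c0_meas δ) N x).2
    have a2 := (lim1 (PP μ d) u hm (c1_one hδ) (c1_meas δ) N x).2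
    refine tendsto_nhds_unique a1 (a2.congr fun F => ?_)
    exact replace_all hCP μ hδ hm u F N x
  have a1 := (lim2 (PP μ d) u hm (c0_one δ) (c0_meas δ) x).2
  have a2 := (lim2 (PP μ d) u hm (c1_one hδ) (c1_meas δ) x).2
  exact tendsto_nhds_unique a1 (a2.congr fun N => (h1 N).symm)

theorem Pn_eq (μ : Measure ℝ) [IsProbabilityMeasure μ] (δ : ℝ) :
    Pn (cyl μ δ) (Fin d → ℤ) = (PP μ d).map fun p y => (p y).1 + δ * (p y).2 := by
  have h1 := Measure.infinitePi_map_pi (fun _ : Fin d → ℤ =>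
    μ.prod (ProbabilityTheory.cauchyMeasure 0 1)) (f := fun _ (p : ℝ × ℝ) => p.1 + δ * p.2)
    (fun _ => by fun_prop)
  rw [PP, h1]
  rfl

theorem avg_c1 (hCP : S_CPOW) (hC : S_CSYM) (μ : Measure ℝ) [IsProbabilityMeasure μ] {δ : ℝ}
    (hδ : 0 < δ) {m : C(UnitAddTorus (Fin d), ℂ)} (hm : ‖m‖ < 1) (u : l2 (Fin d → ℤ))
    (x : Fin d → ℤ) :
    ∫ p, gg m u (c1 δ p) x ∂(PP μ d) = opr (csym (cyl μ δ) m) u x := by
  obtain ⟨-, hM, h1, -⟩ := (hC (cyl μ δ) d m hm).2.1 u x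
  rw [← h1, ← avg_eq hCP μ hδ hm u x, Pn_eq, integral_map]
  · rfl
  · exact (by fun_prop : Measurable fun (p : (Fin d → ℤ) → ℝ × ℝ) (y : Fin d → ℤ) =>
      (p y).1 + δ * (p y).2).aemeasurable
  · exact hM.aestronglyMeasurable

/-! ### weak averages -/

theorem weak {Ω : Type} [MeasurableSpace Ω] (P : Measure Ω) [IsProbabilityMeasure P]
    {g : Ω → l2 (Fin d → ℤ)} {K : ℝ} (hK : ∀ ω, ‖g ω‖ ≤ K) (hg : ∀ x, Measurable fun ω => g ω x)
    {G : l2 (Fin d → ℤ)} (hG : ∀ x, ∫ ω, g ω x ∂P = G x) (b : l2 (Fin d → ℤ)) :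
    Integrable (fun ω => inner ℂ b (g ω)) P ∧ ∫ ω, inner ℂ b (g ω) ∂P = inner ℂ b G := by
  have hm : ∀ s : Finset (Fin d → ℤ),
      Measurable (fun ω => inner ℂ (∑ x ∈ s, b x • (dl x : l2 (Fin d → ℤ))) (g ω)) := by
    intro s
    simp only [inner_trunc]
    exact Finset.measurable_fun_sum s fun x _ => (hg x).const_mul _
  have hb : ∀ (s : Finset (Fin d → ℤ)) (ω : Ω),
      ‖inner ℂ (∑ x ∈ s, b x • (dl x : l2 (Fin d → ℤ))) (g ω)‖ ≤ ‖b‖ * K := by
    intro s ω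
    exact (norm_inner_le_norm (𝕜 := ℂ) _ _).trans
      (mul_le_mul (trunc_norm b s) (hK ω) (norm_nonneg _) (norm_nonneg _))
  have hmw : Measurable (fun ω => inner ℂ b (g ω)) :=
    measurable_of_tendsto_metrizable' (u := (atTop : Filter (Finset (Fin d → ℤ)))) hm
      (tendsto_pi_nhds.2 fun ω => tendsto_trunc b (g ω))
  refine ⟨Integrable.of_bound hmw.aestronglyMeasurable (‖b‖ * K) (Eventually.of_forall fun ω =>
    (norm_inner_le_norm (𝕜 := ℂ) _ _).trans (mul_le_mul_of_nonneg_left (hK ω) (norm_nonneg _))), ?_⟩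
  have hT := tendsto_integral_filter_of_dominated_convergence
    (μ := P) (l := (atTop : Filter (Finset (Fin d → ℤ))))
    (F := fun s ω => inner ℂ (∑ x ∈ s, b x • (dl x : l2 (Fin d → ℤ))) (g ω))
    (f := fun ω => inner ℂ b (g ω)) (fun _ => ‖b‖ * K)
    (Eventually.of_forall fun s => (hm s).aestronglyMeasurable)
    (Eventually.of_forall fun s => Eventually.of_forall fun ω => hb s ω)
    (integrable_const _) (Eventually.of_forall fun ω => tendsto_trunc b (g ω))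
  have he : ∀ s : Finset (Fin d → ℤ),
      ∫ ω, inner ℂ (∑ x ∈ s, b x • (dl x : l2 (Fin d → ℤ))) (g ω) ∂P =
      inner ℂ (∑ x ∈ s, b x • (dl x : l2 (Fin d → ℤ))) G := by
    intro s
    simp only [inner_trunc]
    have hi : ∀ x, Integrable (fun ω => g ω x) P := fun x =>
      Integrable.of_bound (hg x).aestronglyMeasurable K
        (Eventually.of_forall fun ω => (apply_le _ _).trans (hK ω))
    rw [integral_finsetSum _ fun x _ => (hi x).const_mul _]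
    refine Finset.sum_congr rfl fun x _ => ?_
    rw [integral_const_mul, hG x]
  simp only [he] at hT
  exact tendsto_nhds_unique hT (tendsto_trunc b G)

/-! ### the concavity argument -/

theorem pointwise {m : C(UnitAddTorus (Fin d), ℂ)} (hm : ‖m‖ ≤ 1) {q : ℝ} (hq0 : 0 ≤ q)
    (hq1 : q ≤ 1) (u g G : l2 (Fin d → ℤ)) (h : ‖g‖ ≤ q * ‖u + opr m g‖) :
    0 ≤ (q ^ 2 * ‖u + opr m G‖ ^ 2 - ‖G‖ ^ 2) +
      2 * (inner ℂ ((q : ℂ) ^ 2 • ContinuousLinearMap.adjoint (opr m) (u + opr m G) - G)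
        (g - G)).re := by
  set U := u + opr m G with hU
  set w := g - G with hw
  have e1 : u + opr m g = U + opr m w := by
    rw [hU, hw, map_sub]
    abel
  have e2 : g = G + w := by
    rw [hw]
    abel
  have h1 : ‖g‖ ^ 2 ≤ q ^ 2 * ‖u + opr m g‖ ^ 2 := by
    rw [← mul_pow]
    exact pow_le_pow_left₀ (norm_nonneg _) h 2
  have h2 : ‖U + opr m w‖ ^ 2 = ‖U‖ ^ 2 + 2 * (inner ℂ U (opr m w)).re + ‖opr m w‖ ^ 2 := by
    have := @norm_add_sq ℂ _ _ _ _ U (opr m w)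
    simpa using this
  have h3 : ‖G + w‖ ^ 2 = ‖G‖ ^ 2 + 2 * (inner ℂ G w).re + ‖w‖ ^ 2 := by
    have := @norm_add_sq ℂ _ _ _ _ G w
    simpa using this
  have h4 : ‖opr m w‖ ≤ ‖w‖ := (opr_le m w).trans (by nlinarith [norm_nonneg w])
  have h5 : q ^ 2 * ‖opr m w‖ ^ 2 ≤ ‖w‖ ^ 2 := by
    have a1 : ‖opr m w‖ ^ 2 ≤ ‖w‖ ^ 2 := pow_le_pow_left₀ (norm_nonneg _) h4 2
    have a2 : q ^ 2 ≤ 1 := by nlinarith
    nlinarith [sq_nonneg ‖opr m w‖]
  have h6 : (inner ℂ ((q : ℂ) ^ 2 • ContinuousLinearMap.adjoint (opr m) U - G) w).re =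
      q ^ 2 * (inner ℂ U (opr m w)).re - (inner ℂ G w).re := by
    rw [inner_sub_left, inner_smul_left, ContinuousLinearMap.adjoint_inner_left, Complex.sub_re]
    have a1 : (starRingEnd ℂ) ((q : ℂ) ^ 2) = ((q ^ 2 : ℝ) : ℂ) := by
      rw [map_pow, Complex.conj_ofReal]
      push_cast
      rfl
    rw [a1, Complex.re_ofReal_mul]
  rw [h6]
  rw [e1, h2] at h1
  rw [e2, h3] at h1
  nlinarith

theorem contr (hCP : S_CPOW) (hC : S_CSYM) (μ : Measure ℝ) [IsProbabilityMeasure μ] {W δ : ℝ}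
    (hδ : 0 < δ) (hW : 0 ≤ W) (hμ : μ (Set.Icc (-W) W)ᶜ = 0) {m : C(UnitAddTorus (Fin d), ℂ)}
    (hm : ‖m‖ < 1) (u : l2 (Fin d → ℤ)) :
    ‖opr (csym (cyl μ δ) m) u‖ ^ 2 ≤ (1 - 4 * δ / (W ^ 2 + (1 + δ) ^ 2)) *
      ‖u + opr m (opr (csym (cyl μ δ) m) u)‖ ^ 2 := by
  set G := opr (csym (cyl μ δ) m) u with hG
  set Q : ℝ := 1 - 4 * δ / (W ^ 2 + (1 + δ) ^ 2) with hQ
  have hD : 0 < W ^ 2 + (1 + δ) ^ 2 := by positivity
  have hQ0 : 0 ≤ Q := by
    have e1 : Q = (W ^ 2 + (1 - δ) ^ 2) / (W ^ 2 + (1 + δ) ^ 2) := by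
      rw [hQ]
      field_simp
      ring
    rw [e1]
    positivity
  have hQ1 : Q ≤ 1 := by
    have : 0 ≤ 4 * δ / (W ^ 2 + (1 + δ) ^ 2) := by positivity
    linarith
  set q := Real.sqrt Q with hq
  have hq0 : 0 ≤ q := Real.sqrt_nonneg _
  have hq2 : q ^ 2 = Q := Real.sq_sqrt hQ0
  have hq1 : q ≤ 1 := by nlinarith
  set b := (q : ℂ) ^ 2 • ContinuousLinearMap.adjoint (opr m) (u + opr m G) - G with hb
  have hM : ∀ x, Measurable fun p : (Fin d → ℤ) → ℝ × ℝ => gg m u (c1 δ p) x := fun x =>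
    (lim2 (PP μ d) u hm (c1_one hδ) (c1_meas δ) x).1
  obtain ⟨hi, hw⟩ := weak (PP μ d) (g := fun p => gg m u (c1 δ p))
    (fun p => gg_norm hm (c1_one hδ p)) hM (G := G)
    (fun x => avg_c1 hCP hC μ hδ hm u x) b
  have hae : ∀ᵐ p ∂(PP μ d), 0 ≤ (q ^ 2 * ‖u + opr m G‖ ^ 2 - ‖G‖ ^ 2) +
      2 * (inner ℂ b (gg m u (c1 δ p)) - inner ℂ b G).re := by
    have h1 : ∀ᵐ p ∂(PP μ d), ∀ y : Fin d → ℤ, (p y).1 ∈ Set.Icc (-W) W := by
      rw [ae_all_iff]
      intro y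
      have h2 : ∀ᵐ a : ℝ × ℝ ∂(μ.prod (ProbabilityTheory.cauchyMeasure 0 1)),
          a.1 ∈ Set.Icc (-W) W := by
        have h3 : ∀ᵐ w ∂μ, w ∈ Set.Icc (-W) W := by
          rw [ae_iff]
          exact hμ
        exact (measurePreserving_fst (μ := μ)
          (ν := ProbabilityTheory.cauchyMeasure 0 1)).quasiMeasurePreserving.ae h3
      exact (measurePreserving_eval_infinitePi (fun _ : Fin d → ℤ =>
        μ.prod (ProbabilityTheory.cauchyMeasure 0 1)) y).quasiMeasurePreserving.ae h2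
    filter_upwards [h1] with p hp
    have h2 : ∀ y, ‖c1 δ p y‖ ≤ q := by
      intro y
      have h3 := cp_sq hδ (p y).1
      have h4 : 4 * δ / (W ^ 2 + (1 + δ) ^ 2) ≤ 4 * δ / ((p y).1 ^ 2 + (1 + δ) ^ 2) := by
        apply div_le_div_of_nonneg_left (by positivity) (by positivity)
        have := hp y
        nlinarith [this.1, this.2]
      have h5 : ‖c1 δ p y‖ ^ 2 ≤ q ^ 2 := by
        rw [hq2]
        change ‖cp δ (p y).1‖ ^ 2 ≤ _
        linarith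
      exact le_of_sq_le_sq h5 hq0
    have h3 : ‖gg m u (c1 δ p)‖ ≤ q * ‖u + opr m (gg m u (c1 δ p))‖ := by
      conv_lhs => rw [gg_fix hm (c1_one hδ p)]
      exact dia_norm (c1_one hδ p) _ hq0 h2
    have h4 := pointwise hm.le hq0 hq1 u (gg m u (c1 δ p)) G h3
    rwa [inner_sub_right] at h4
  have h1 := integral_nonneg_of_ae hae
  have h2 : Integrable (fun p : (Fin d → ℤ) → ℝ × ℝ => inner ℂ b (gg m u (c1 δ p)) -
      inner ℂ b G) (PP μ d) := hi.sub (integrable_const _)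
  have h3 : ∫ p, (inner ℂ b (gg m u (c1 δ p)) - inner ℂ b G) ∂(PP μ d) = 0 := by
    rw [integral_sub hi (integrable_const _), hw, integral_const, probReal_univ, one_smul, sub_self]
  have h4 : ∫ p, (inner ℂ b (gg m u (c1 δ p)) - inner ℂ b G).re ∂(PP μ d) = 0 := by
    have e1 := integral_re h2
    rw [h3] at e1
    simpa using e1
  have h2' : Integrable (fun p : (Fin d → ℤ) → ℝ × ℝ => (inner ℂ b (gg m u (c1 δ p)) -
      inner ℂ b G).re) (PP μ d) := h2.re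
  rw [integral_add (integrable_const _) (h2'.const_mul 2), integral_const_mul, h4, integral_const,
    probReal_univ, one_smul, mul_zero, add_zero, hq2] at h1
  linarith

/-! ### the effective phase -/

/-- PSIC -/
theorem psic (hS : S_SYMB) (hC : S_CSYM) (hP : S_PSI) (hCP : S_CPOW) : S_PSIC := by
  intro μ _ W δ hδ hW hμ d m hm
  set s := csym (cyl μ δ) m with hs
  set Q : ℝ := 1 - 4 * δ / (W ^ 2 + (1 + δ) ^ 2) with hQ
  have hD : 0 < W ^ 2 + (1 + δ) ^ 2 := by positivity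
  have hQ0 : 0 ≤ Q := by
    have e1 : Q = (W ^ 2 + (1 - δ) ^ 2) / (W ^ 2 + (1 + δ) ^ 2) := by
      rw [hQ]
      field_simp
      ring
    rw [e1]
    positivity
  obtain ⟨hS1, -, hS3, -⟩ := hS d
  set B : C(UnitAddTorus (Fin d), ℂ) := 1 + m * s with hB
  have hone : opr (1 : C(UnitAddTorus (Fin d), ℂ)) = 1 :=
    (Pool.Agent.W918.LL.main d m m).2.2.2.2.2.1
  have hBu : ∀ u : l2 (Fin d → ℤ), opr B u = u + opr m (opr s u) := by
    intro u
    rw [hB, opr_add, opr_mul, hone]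
    rfl
  have hpos : ∀ k, 0 ≤ (((Q : ℂ) • (star B * B) - star s * s :
      C(UnitAddTorus (Fin d), ℂ)) k).re := by
    refine (hS3 _).1 fun u => ?_
    have h1 := contr hCP hC μ hδ hW hμ hm u
    rw [← hs, ← hBu, ← hQ] at h1
    rw [opr_sub, opr_smul]
    have h2 : inner ℂ u (((Q : ℂ) • opr (star B * B) - opr (star s * s)) u) =
        (Q : ℂ) * inner ℂ (opr B u) (opr B u) - inner ℂ (opr s u) (opr s u) := by
      rw [hS1 B B u u, hS1 s s u u]
      change inner ℂ u ((Q : ℂ) • (opr (star B * B) u) - opr (star s * s) u) = _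
      rw [inner_sub_right, inner_smul_right]
    rw [h2, inner_self_eq_norm_sq_to_K, inner_self_eq_norm_sq_to_K]
    have h3 : ((Q : ℂ) * ((‖opr B u‖ : ℝ) : ℂ) ^ 2 - ((‖opr s u‖ : ℝ) : ℂ) ^ 2).re =
        Q * ‖opr B u‖ ^ 2 - ‖opr s u‖ ^ 2 := by
      have e1 : (Q : ℂ) * ((‖opr B u‖ : ℝ) : ℂ) ^ 2 - ((‖opr s u‖ : ℝ) : ℂ) ^ 2 =
          ((Q * ‖opr B u‖ ^ 2 - ‖opr s u‖ ^ 2 : ℝ) : ℂ) := by
        push_cast
        rfl
      rw [e1, Complex.ofReal_re]
    refine le_trans ?_ (le_of_eq h3.symm)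
    linarith
  rw [ContinuousMap.norm_le _ (Real.sqrt_nonneg _)]
  intro k
  have h1 := (hP (cyl μ δ) d ‖m‖ m m (norm_nonneg _) hm le_rfl le_rfl).1 k
  obtain ⟨hne, hpsi, -⟩ := h1
  rw [← hs] at hne hpsi
  have h2 := hpos k
  have h3 : (((Q : ℂ) • (star B * B) - star s * s : C(UnitAddTorus (Fin d), ℂ)) k).re =
      Q * ‖1 + m k * s k‖ ^ 2 - ‖s k‖ ^ 2 := by
    have e1 : ((Q : ℂ) • (star B * B) - star s * s : C(UnitAddTorus (Fin d), ℂ)) k =
        (Q : ℂ) * ((starRingEnd ℂ) (1 + m k * s k) * (1 + m k * s k)) -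
          (starRingEnd ℂ) (s k) * s k := rfl
    rw [e1, mul_comm ((starRingEnd ℂ) (1 + m k * s k)), mul_comm ((starRingEnd ℂ) (s k)),
      Complex.mul_conj, Complex.mul_conj, Complex.normSq_eq_norm_sq, Complex.normSq_eq_norm_sq,
      ← Complex.ofReal_mul, ← Complex.ofReal_sub, Complex.ofReal_re]
  rw [h3] at h2
  have h4 : 0 < ‖1 + m k * s k‖ := norm_pos_iff.2 hne
  have h5 : ‖s k‖ ≤ Real.sqrt Q * ‖1 + m k * s k‖ := by
    have e1 : ‖s k‖ ^ 2 ≤ (Real.sqrt Q * ‖1 + m k * s k‖) ^ 2 := by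
      rw [mul_pow, Real.sq_sqrt hQ0]
      linarith
    exact le_of_sq_le_sq e1 (by positivity)
  rw [hpsi, norm_div, div_le_iff₀ h4]
  exact h5

/-- PSIC, with the library results -/
theorem main (hS : S_SYMB) (hC : S_CSYM) (hP : S_PSI) : S_CPOW → S_PSIC := psic hS hC hP

end Pool.Agent.N300.LD
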